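import Pool.Agent.H958.RO.Stm
import Pool.Graph.R_seed8.W657.RD.PBas

/-!
# Project RO: no small dense sets
-/

set_option autoImplicit false

namespace Pool.Agent.H52.RO.Star

open Finset Filter Topology
open scoped Classical
open Pool.Agent.W830.RD (Om gle Pr Rlz)
open Pool.Agent.H958.RO

noncomputable section

/-- geometric sums with ratio at most one half -/
theorem geo {r : ℝ} (h0 : 0 ≤ r) (h1 : r ≤ 1 / 2) (m : ℕ) :
    ∑ x ∈ Icc 1 m, r ^ x ≤ 2 * r * (1 - (1 / 2) ^ m) := by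
  induction m with
  | zero => simp
  | succ m ih =>
    rw [Finset.sum_Icc_succ_top (by omega)]
    have h2 : r ^ (m + 1) ≤ r * (1 / 2) ^ m := by
      rw [pow_succ']
      exact mul_le_mul_of_nonneg_left (pow_le_pow_left₀ h0 h1 m) h0
    have h3 : (1 / 2 : ℝ) ^ (m + 1) = (1 / 2) ^ m / 2 := by
      rw [pow_succ]
      ring
    rw [h3]
    linarith

theorem geo' {r : ℝ} (h0 : 0 ≤ r) (h1 : r ≤ 1 / 2) (m : ℕ) : ∑ x ∈ Icc 1 m, r ^ x ≤ 2 * r := by
  refine (geo h0 h1 m).trans ?_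
  have h2 : (0 : ℝ) ≤ (1 / 2) ^ m := by positivity
  nlinarith

/-- the sum of `v / 2 ^ v` -/
theorem arith (m : ℕ) : ∑ v ∈ Icc 1 m, (1 / 2 : ℝ) ^ v * v = 2 - (m + 2) * (1 / 2) ^ m := by
  induction m with
  | zero => simp
  | succ m ih =>
    rw [Finset.sum_Icc_succ_top (by omega), ih]
    push_cast
    rw [pow_succ]
    ring

theorem arith_le (m : ℕ) : ∑ v ∈ Icc 1 m, (1 / 2 : ℝ) ^ v * v ≤ 2 := by
  rw [arith]
  have : (0 : ℝ) ≤ ((m : ℝ) + 2) * (1 / 2) ^ m := by positivity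
  linarith

theorem term (h2 : S_TERM) (h3 : S_CNT) {c : ℝ} (hc : 0 < c) {T : ℕ} (hT : 1 ≤ T)
    (hT2 : 4 * Real.exp 2 * c / T ≤ 1 / 2) {C n v x : ℕ} (hn : T ≤ n) (hv : 1 ≤ v) :
    ((cfg n T v x (C * x)).card : ℝ) * (c / n) ^ (v + x) ≤
      (1 / 2) ^ v * (2 * Real.exp 1 * c * (T : ℝ) ^ C * v / n) ^ x := by
  have e1 := h3 n T v x (C * x) hT hn
  have e2 := h2 c n T v x (C * x) hc hT hn hv
  have hT0 : (0 : ℝ) < T := by exact_mod_cast hT
  have hn0 : (0 : ℝ) < n := by exact_mod_cast (show 0 < n by omega)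
  have hp : (0 : ℝ) ≤ (c / n) ^ (v + x) := by positivity
  have e3 : (v.factorial : ℝ) * ((cfg n T v x (C * x)).card : ℝ) ≤
      (2 : ℝ) ^ (v + x) * ((v ^ 2).choose (v + x) : ℝ) * (T : ℝ) ^ (C * x) *
        ((n / T + 1 : ℕ) : ℝ) ^ v := by exact_mod_cast e1
  have e4 := mul_le_mul_of_nonneg_right e3 hp
  have e5 := e4.trans e2
  have hf : (0 : ℝ) < v.factorial := by exact_mod_cast v.factorial_pos
  rw [mul_assoc] at e5
  have e6 := le_of_mul_le_mul_left e5 hf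
  refine e6.trans ?_
  have e7 : (2 * Real.exp 1 * c * (T : ℝ) ^ C * v / n) ^ x =
      (2 * Real.exp 1 * c * v / n) ^ x * (T : ℝ) ^ (C * x) := by
    rw [pow_mul, ← mul_pow]
    congr 1
    ring
  rw [e7, ← mul_assoc]
  have e8 : (4 * Real.exp 2 * c / T) ^ v ≤ (1 / 2 : ℝ) ^ v :=
    pow_le_pow_left₀ (by positivity) hT2 v
  have e9 : (0 : ℝ) ≤ (2 * Real.exp 1 * c * v / n) ^ x := by positivity
  have e10 : (0 : ℝ) ≤ (T : ℝ) ^ (C * x) := by positivity
  exact mul_le_mul_of_nonneg_right (mul_le_mul_of_nonneg_right e8 e9) e10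

theorem main (h1 : S_UBS) (h2 : S_TERM) (h3 : S_CNT) : S_STAR := by
  intro c hc
  obtain ⟨T0, hT0⟩ := exists_nat_ge (8 * Real.exp 2 * c)
  refine ⟨T0 + 1, by omega, ?_⟩
  set T := T0 + 1 with hTdef
  have hT : 1 ≤ T := by omega
  have hTr : (0 : ℝ) < T := by exact_mod_cast hT
  have hT2 : 4 * Real.exp 2 * c / T ≤ 1 / 2 := by
    rw [div_le_iff₀ hTr, hTdef]
    push_cast
    linarith
  intro C
  set A : ℝ := 2 * Real.exp 1 * c * (T : ℝ) ^ C with hA
  have hA0 : 0 < A := by positivity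
  refine ⟨1 / (2 * A), by positivity, ?_⟩
  -- the bound
  have key : ∀ n : ℕ, T ≤ n → c < n →
      Pr (c / n) n (fun E => ¬ Star T C (1 / (2 * A)) E) ≤ 4 * A / n := by
    intro n hn hcn
    have hn0 : (0 : ℝ) < n := by exact_mod_cast (show 0 < n by omega)
    have hp0 : 0 < c / n := by positivity
    have hp1 : c / n < 1 := (div_lt_one hn0).2 hcn
    refine (h1 (c / n) n T C (1 / (2 * A)) hp0 hp1).trans ?_
    have e1 : ∀ v ∈ (Icc 1 n).filter (fun v : ℕ => (v : ℝ) ≤ 1 / (2 * A) * n),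
        ∑ x ∈ Icc 1 (v ^ 2), ((cfg n T v x (C * x)).card : ℝ) * (c / n) ^ (v + x) ≤
          (1 / 2 : ℝ) ^ v * v * (2 * A / n) := by
      intro v hv
      rw [mem_filter, mem_Icc] at hv
      have hr0 : 0 ≤ A * v / n := by positivity
      have hr1 : A * v / n ≤ 1 / 2 := by
        rw [div_le_iff₀ hn0]
        have := mul_le_mul_of_nonneg_left hv.2 hA0.le
        have e : A * (1 / (2 * A) * n) = 1 / 2 * n := by
          field_simp
        linarith
      calc ∑ x ∈ Icc 1 (v ^ 2), ((cfg n T v x (C * x)).card : ℝ) * (c / n) ^ (v + x)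
          ≤ ∑ x ∈ Icc 1 (v ^ 2), (1 / 2 : ℝ) ^ v * (A * v / n) ^ x :=
            Finset.sum_le_sum fun x _ => term h2 h3 hc hT hT2 hn hv.1.1
        _ = (1 / 2 : ℝ) ^ v * ∑ x ∈ Icc 1 (v ^ 2), (A * v / n) ^ x := by rw [Finset.mul_sum]
        _ ≤ (1 / 2 : ℝ) ^ v * (2 * (A * v / n)) :=
            mul_le_mul_of_nonneg_left (geo' hr0 hr1 _) (by positivity)
        _ = (1 / 2 : ℝ) ^ v * v * (2 * A / n) := by ring
    refine (Finset.sum_le_sum e1).trans ?_
    have e2 : ∑ v ∈ (Icc 1 n).filter (fun v : ℕ => (v : ℝ) ≤ 1 / (2 * A) * n),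
        (1 / 2 : ℝ) ^ v * v * (2 * A / n) ≤ ∑ v ∈ Icc 1 n, (1 / 2 : ℝ) ^ v * v * (2 * A / n) :=
      Finset.sum_le_sum_of_subset_of_nonneg (filter_subset _ _) fun _ _ _ => by positivity
    refine e2.trans ?_
    rw [← Finset.sum_mul]
    calc (∑ v ∈ Icc 1 n, (1 / 2 : ℝ) ^ v * v) * (2 * A / n) ≤ 2 * (2 * A / n) :=
          mul_le_mul_of_nonneg_right (arith_le n) (by positivity)
      _ = 4 * A / n := by ring
  have hlim : Tendsto (fun n : ℕ => 4 * A / (n : ℝ)) atTop (𝓝 0) :=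
    tendsto_const_div_atTop_nhds_zero_nat _
  obtain ⟨N, hN⟩ := exists_nat_gt c
  have hev : ∀ᶠ n : ℕ in atTop, T ≤ n ∧ c < n := by
    filter_upwards [eventually_ge_atTop (max T N)] with n hn
    refine ⟨le_trans (le_max_left _ _) hn, hN.trans_le ?_⟩
    exact_mod_cast le_trans (le_max_right _ _) hn
  refine tendsto_of_tendsto_of_tendsto_of_le_of_le' tendsto_const_nhds hlim ?_ ?_
  · filter_upwards [hev] with n hn
    have hn0 : (0 : ℝ) < n := by exact_mod_cast (show 0 < n by omega)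
    exact (Pool.Agent.W657.RD.PBas.main (c / n) n (by positivity)
      ((div_lt_one hn0).2 hn.2)).2.1 _
  · filter_upwards [hev] with n hn
    exact key n hn.1 hn.2

end

end Pool.Agent.H52.RO.Star
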